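import Pool.Agent.Zk50.SE.Defs
import Pool.Agent.Zk50.SD.Main

/-!
# Self-dual Chow-Kunneth decompositions from one nilpotent correspondence

If the lower Kunneth components of `X` lift to orthogonal projectors `p 0, ..., p (d - 1)` of the motive of `X`,
`d = dim X`, such that the correspondence `ᵗP ∘ P`, `P = p 0 + ... + p (d - 1)`, is nilpotent, then `X` has a self-dual
Chow-Kunneth decomposition. Nothing is assumed on the other homologically trivial correspondences.

For the proof the summand `P h(X)` is embedded as an isotropic summand of `h(X)` by an isomorphism `u` (with the inverse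
`v`), and the projectors are `u p_i v`.
-/

open CategoryTheory AlgebraicGeometry

set_option autoImplicit false

universe w₁ w₂ w₃

namespace Pool.Agent.Zk81.SE

open Pool.Agent.Zk50.SD

section ring

variable {A B : Type*} [Ring A] [Algebra ℚ A] [Ring B] {s : A →+ A} {φ : A →+* B}

open Polynomial

/-- **The isotropic step**, with the isomorphism of the two images: only `p (s p) p` has to be
nilpotent. -/
theorem exists_isotropic_iso (hs : AntiInv s) {p : A}
    (hp : p * p = p) (h1 : φ (s p * p) = 0) (h2 : φ (p * s p) = 0)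
    (hnn' : IsNilpotent (p * s p * p)) :
    ∃ u v : A, v * u = p ∧ u * p = u ∧ p * v = v ∧ s u * u = 0 ∧ v * s v = 0 ∧ φ u = φ p ∧
      φ v = φ p ∧ (∃ x y, u = p * x + s p * y) ∧ (∃ x y, v = x * p + y * s p) := by
  obtain ⟨n, hn⟩ : ∃ n, n = p * s p * p := ⟨_, rfl⟩
  have hnn : IsNilpotent n := by rwa [hn]
  obtain ⟨q, hq⟩ := exists_root hnn
  obtain ⟨c, hc⟩ : ∃ c, c = aeval n q := ⟨_, rfl⟩
  rw [← hc] at hq
  have hcn : n * c = c * n := by
    rw [hc]; exact aeval_intertwine (β := n) (n := n) (n' := n) rfl q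
  have hpn : p * n = n := by rw [hn, ← mul_assoc, ← mul_assoc, hp]
  have hnp : n * p = n := by rw [hn, mul_assoc, hp]
  have hpc : p * c = c * p := by rw [hc]; exact aeval_intertwine (by rw [hpn, hnp]) q
  obtain ⟨n', hn'⟩ : ∃ n', n' = s p * p * s p := ⟨_, rfl⟩
  have hsn : s n = n' := by
    rw [hn, hs.mul, hs.mul, hs.inv, hn', mul_assoc]
  obtain ⟨c', hc'⟩ : ∃ c', c' = aeval n' q := ⟨_, rfl⟩
  have hsc : s c = c' := by rw [hc, hs.aeval, hsn, hc']
  have hsp : s p * s p = s p := by rw [← hs.mul, hp]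
  -- the Gram elements
  obtain ⟨β, hβ⟩ : ∃ β, β = s p * p := ⟨_, rfl⟩
  obtain ⟨γ, hγ⟩ : ∃ γ, γ = p * s p := ⟨_, rfl⟩
  rw [← hβ] at h1
  rw [← hγ] at h2
  have hsβ : s β = β := by rw [hβ, hs.mul, hs.inv]
  have hsγ : s γ = γ := by rw [hγ, hs.mul, hs.inv]
  have hβn : β * n = n' * β := by
    rw [hβ, hn, hn']
    calc s p * p * (p * s p * p) = s p * (p * p) * s p * p := by simp only [mul_assoc]
      _ = s p * p * (s p * s p) * p := by rw [hp, hsp]
      _ = _ := by simp only [mul_assoc]
  have hγn : γ * n' = n * γ := by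
    rw [hγ, hn, hn']
    calc p * s p * (s p * p * s p) = p * (s p * s p) * p * s p := by simp only [mul_assoc]
      _ = p * s p * (p * p) * s p := by rw [hp, hsp]
      _ = _ := by simp only [mul_assoc]
  have hβc : β * c = c' * β := by rw [hc, hc']; exact aeval_intertwine hβn q
  have hγc : γ * c' = c * γ := by rw [hc, hc']; exact aeval_intertwine hγn q
  have hββ : β * β = β * n := by
    have e1 : β * p = β := by rw [hβ, mul_assoc, hp]
    calc β * β = β * s p * p := by rw [hβ]; simp only [mul_assoc]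
      _ = β * p * s p * p := by rw [e1]
      _ = β * n := by rw [hn]; simp only [mul_assoc]
  have hγγ : γ * γ = γ * n' := by
    have e1 : γ * s p = γ := by rw [hγ, mul_assoc, hsp]
    calc γ * γ = γ * p * s p := by rw [hγ]; simp only [mul_assoc]
      _ = γ * s p * p * s p := by rw [e1]
      _ = γ * n' := by rw [hn']; simp only [mul_assoc]
  have hpβ : p * β = n := by rw [hβ, hn, mul_assoc]
  have hγp : γ * p = n := by rw [hγ, hn]
  have hγβ : γ * β = n := by
    rw [hγ, hβ, hn]
    calc p * s p * (s p * p) = p * (s p * s p) * p := by simp only [mul_assoc]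
      _ = _ := by rw [hsp]
  have hq' : 1 - 2 * c' + n' * c' ^ 2 = 0 := by
    have := congrArg s hq
    rw [map_add, map_sub, hs.one, map_zero, hs.mul, hs.mul, hs.pow, hsc, hsn] at this
    have h2' : s 2 = 2 := by
      have : (2 : A) = 1 + 1 := by norm_num
      rw [this, map_add, hs.one]
    have hcn' : n' * c' = c' * n' := by rw [hc']; exact aeval_intertwine (β := n') rfl q
    rw [h2'] at this
    have e1 : c' ^ 2 * n' = n' * c' ^ 2 := by
      rw [pow_two, mul_assoc, ← hcn', ← mul_assoc, ← hcn', mul_assoc]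
    have e2 : c' * 2 = 2 * c' := by rw [two_mul, mul_two]
    rw [e1, e2] at this
    exact this
  -- the isotropic embedding and projection
  obtain ⟨u, hu⟩ : ∃ u, u = p - β * c := ⟨_, rfl⟩
  obtain ⟨w, hw⟩ : ∃ w, w = p - c * γ := ⟨_, rfl⟩
  have hsu : s u = s p - c' * β := by rw [hu, map_sub, hs.mul, hsβ, hsc]
  have hsw : s w = s p - γ * c' := by rw [hw, map_sub, hs.mul, hsγ, hsc]
  have huu : s u * u = 0 := by
    rw [hsu, hu, mul_sub, sub_mul, sub_mul]
    have e1 : s p * p = β := hβ.symm
    have e2 : c' * β * p = c' * β := by rw [hβ, mul_assoc, mul_assoc, hp]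
    have e3 : s p * (β * c) = β * c := by rw [hβ, ← mul_assoc, ← mul_assoc, hsp]
    have e4 : c' * β * (β * c) = β * n * c ^ 2 := by
      calc c' * β * (β * c) = c' * (β * β) * c := by simp only [mul_assoc]
        _ = c' * β * (n * c) := by rw [hββ]; simp only [mul_assoc]
        _ = β * c * (n * c) := by rw [← hβc]
        _ = β * (c * n) * c := by simp only [mul_assoc]
        _ = β * n * c ^ 2 := by rw [← hcn, pow_two]; simp only [mul_assoc]
    rw [e1, e2, e3, e4, ← hβc]
    have h0 := congrArg (fun z => β * z) hq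
    simp only [mul_zero] at h0
    rw [mul_add, mul_sub, mul_one, ← mul_assoc β n, show β * (2 * c) = β * c + β * c by
      rw [two_mul, mul_add]] at h0
    rw [← h0]
    abel
  have hww : w * s w = 0 := by
    rw [hsw, hw, mul_sub, sub_mul, sub_mul]
    have e1 : p * s p = γ := hγ.symm
    have e2 : c * γ * s p = c * γ := by rw [hγ, mul_assoc, mul_assoc, hsp]
    have e3 : p * (γ * c') = γ * c' := by rw [hγ, ← mul_assoc, ← mul_assoc, hp]
    have hcn' : n' * c' = c' * n' := by rw [hc']; exact aeval_intertwine (β := n') rfl q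
    have e4 : c * γ * (γ * c') = γ * n' * c' ^ 2 := by
      calc c * γ * (γ * c') = c * (γ * γ) * c' := by simp only [mul_assoc]
        _ = c * γ * (n' * c') := by rw [hγγ]; simp only [mul_assoc]
        _ = γ * c' * (n' * c') := by rw [← hγc]
        _ = γ * (c' * n') * c' := by simp only [mul_assoc]
        _ = γ * n' * c' ^ 2 := by rw [← hcn', pow_two]; simp only [mul_assoc]
    rw [e1, e2, e3, e4, ← hγc]
    have h0 := congrArg (fun z => γ * z) hq'
    simp only [mul_zero] at h0
    rw [mul_add, mul_sub, mul_one, ← mul_assoc γ n', show γ * (2 * c') = γ * c' + γ * c' by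
      rw [two_mul, mul_add]] at h0
    rw [← h0]
    abel
  -- the unit
  have hm : IsNilpotent (n * (2 * c - c ^ 2)) := by
    have hcomm : Commute n (2 * c - c ^ 2) := by
      have h3 : Commute n c := hcn
      exact (((Nat.cast_commute 2 n).symm.mul_right h3).sub_right (h3.pow_right 2))
    exact hcomm.isNilpotent_mul_right hnn
  have hunit : IsUnit (1 - n * (2 * c - c ^ 2)) := hm.isUnit_one_sub
  obtain ⟨z, hz⟩ := hunit
  obtain ⟨a, ha⟩ : ∃ a : A, a = (↑z⁻¹ : A) := ⟨_, rfl⟩
  have haz : a * (1 - n * (2 * c - c ^ 2)) = 1 := by rw [ha, ← hz, Units.inv_mul]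
  have hwu : w * u = (1 - n * (2 * c - c ^ 2)) * p := by
    rw [hw, hu, mul_sub, sub_mul, sub_mul, hp]
    have e2 : c * γ * p = c * n := by rw [mul_assoc, hγp]
    have e3 : p * (β * c) = n * c := by rw [← mul_assoc, hpβ]
    have e4 : c * γ * (β * c) = n * c ^ 2 := by
      calc c * γ * (β * c) = c * (γ * β) * c := by simp only [mul_assoc]
        _ = n * c ^ 2 := by rw [hγβ, ← hcn, mul_assoc, pow_two]
    have e5 : n * c * p = n * c := by rw [mul_assoc, ← hpc, ← mul_assoc, hnp]
    have e6 : n * c ^ 2 * p = n * c ^ 2 := by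
      rw [pow_two, ← mul_assoc, mul_assoc (n * c), ← hpc, ← mul_assoc, e5]
    rw [e2, e3, e4, sub_mul, one_mul, mul_sub, sub_mul, e6, show n * (2 * c) = n * c + n * c by
      rw [two_mul, mul_add], add_mul, e5, ← hcn]
    abel
  obtain ⟨v, hv⟩ : ∃ v, v = a * w := ⟨_, rfl⟩
  have hvu : v * u = p := by
    rw [hv, mul_assoc, hwu, ← mul_assoc, haz, one_mul]
  have hup : u * p = u := by
    rw [hu, sub_mul, hp, mul_assoc, ← hpc, ← mul_assoc, hβ, mul_assoc (s p), hp]
  have hpa : p * a = a * p := by
    have e1 : p * (1 - n * (2 * c - c ^ 2)) = (1 - n * (2 * c - c ^ 2)) * p := by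
      have e2 : p * (n * (2 * c - c ^ 2)) = n * (2 * c - c ^ 2) * p := by
        have e3 : Commute p n := by rw [commute_iff_eq, hpn, hnp]
        have e4 : Commute p c := hpc
        have e5 : Commute p (2 * c - c ^ 2) :=
          ((Nat.cast_commute 2 p).symm.mul_right e4).sub_right (e4.pow_right 2)
        exact (e3.mul_right e5).eq
      rw [mul_sub, sub_mul, e2, mul_one, one_mul]
    have hza : (1 - n * (2 * c - c ^ 2)) * a = 1 := by rw [ha, ← hz, Units.mul_inv]
    calc p * a = a * (1 - n * (2 * c - c ^ 2)) * (p * a) := by rw [haz, one_mul]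
      _ = a * ((1 - n * (2 * c - c ^ 2)) * p) * a := by simp only [mul_assoc]
      _ = a * (p * (1 - n * (2 * c - c ^ 2))) * a := by rw [e1]
      _ = a * p * ((1 - n * (2 * c - c ^ 2)) * a) := by simp only [mul_assoc]
      _ = a * p := by rw [hza, mul_one]
  have hpw : p * w = w := by
    rw [hw, mul_sub, hp, ← mul_assoc, hpc, mul_assoc c, hγ, ← mul_assoc p, hp]
  refine ⟨u, v, hvu, hup, ?_, huu, ?_, ?_, ?_, ?_, ?_⟩
  · rw [hv, ← mul_assoc, hpa, mul_assoc, hpw]
  · rw [hv, hs.mul, mul_assoc, ← mul_assoc w, hww, zero_mul, mul_zero]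
  · rw [hu, map_sub, map_mul, h1, zero_mul, sub_zero]
  · have f1 : φ n = 0 := by rw [← hpβ, map_mul, h1, mul_zero]
    have f4 : φ w = φ p := by rw [hw, map_sub, map_mul, h2, mul_zero, sub_zero]
    have f5 : φ a = 1 := by
      have := congrArg φ haz
      rw [map_mul, map_sub, map_one, map_mul, f1, zero_mul, sub_zero, mul_one] at this
      exact this
    rw [hv, map_mul, f5, one_mul, f4]
  · refine ⟨1, -(p * c), ?_⟩
    rw [hu, hβ]
    simp only [mul_assoc, mul_neg, mul_one]
    abel
  · refine ⟨a, -(a * c * p), ?_⟩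
    rw [hv, hw, hγ]
    simp only [mul_assoc, mul_sub, neg_mul]
    abel

end ring

section geo

open Pool.Agent.H914 Pool.Agent.H914.VarClass Pool.Agent.H914.VarClass.Obj Pool.Agent.W492.BB
  Pool.Agent.W550.Corr Pool.Agent.TH133 Pool.Agent.Y107 Pool.Agent.Zk50.SE

variable {k : Type w₁} [Field k] {𝒱 : VarClass k} {C : TheoryData.{w₁, w₂, 0} 𝒱 ℚ}
  [hC : IsChowProj C] {K : Type w₃} [Field K] {H : WeilTheoryData.{w₁, w₂, w₃} C K}
  [hH : IsWeilProj H]

include hC in
lemma corPow_eq_pow {X : 𝒱.Obj} (L : Cor C X) (n : ℕ) :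
    (corPow C (X := X) L n : C.A (X.prod X)) = (L ^ n : Cor C X) := by
  induction n with
  | zero => rw [pow_zero]; rfl
  | succ n ih =>
    rw [pow_succ']
    show C.comp (corPow C (X := X) L n) L = _
    rw [ih]
    rfl

include hC hH in
/-- **One nilpotent correspondence.** If orthogonal projectors `p 0, ..., p (d - 1)`, `d = dim X`, lift the lower
Kunneth components and `ᵗP ∘ P` is nilpotent for their sum `P`, then `X` has a self-dual Chow-Kunneth
decomposition. -/
theorem selfDual_of_nil (X : 𝒱.Obj) (p : ℕ → C.A (X.prod X))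
    (hdeg : ∀ i < X.dim, C.Deg X.dim (p i)) (hid : ∀ i < X.dim, C.comp (p i) (p i) = p i)
    (horth : ∀ i < X.dim, ∀ j < X.dim, i ≠ j → C.comp (p i) (p j) = 0)
    (hact : ∀ i < X.dim, IsLift H i (p i))
    (hnil : ∃ n, corPow C (C.comp (∑ i ∈ Finset.range X.dim, p i)
      (tp C (∑ i ∈ Finset.range X.dim, p i))) n = 0) :
    ∃ π, IsCK H X π ∧ IsSelfDual C π := by
  classical
  obtain ⟨q, hq⟩ : ∃ q : ℕ → cor0 C X, ∀ i, ((q i : cor0 C X) : Cor C X) =
      if i < X.dim then (p i : Cor C X) else 0 := by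
    have h : ∀ i, ∃ y : cor0 C X, (y : Cor C X) = if i < X.dim then (p i : Cor C X) else 0 := by
      intro i
      by_cases h : i < X.dim
      · exact ⟨⟨(p i : Cor C X), hdeg i h⟩, (if_pos h).symm⟩
      · exact ⟨0, (if_neg h).symm⟩
    choose q hq using h
    exact ⟨q, hq⟩
  have hqlt : ∀ i < X.dim, ((q i : cor0 C X) : Cor C X) = (p i : Cor C X) := fun i hi => by
    rw [hq, if_pos hi]
  have hq0 : ∀ i, X.dim ≤ i → q i = 0 := fun i hi => by
    apply Subtype.ext
    rw [hq, if_neg (by omega)]
    rfl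
  have hqq : ∀ i j, q i * q j = if i = j then q i else 0 := by
    intro i j
    rcases lt_or_ge i X.dim with hi | hi
    · rcases lt_or_ge j X.dim with hj | hj
      · apply Subtype.ext
        by_cases hij : i = j
        · subst hij
          rw [if_pos rfl]
          show ((q i : cor0 C X) : Cor C X) * ((q i : cor0 C X) : Cor C X) = _
          rw [hqlt i hi]
          exact hid i hi
        · rw [if_neg hij]
          show ((q i : cor0 C X) : Cor C X) * ((q j : cor0 C X) : Cor C X) = 0
          rw [hqlt i hi, hqlt j hj]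
          exact horth j hj i hi (Ne.symm hij)
      · rw [hq0 j hj, mul_zero, if_neg (by omega)]
    · rw [hq0 i hi, zero_mul]
      split_ifs <;> rfl
  set φ := act0 C H X with hφ
  have hφq : ∀ i < X.dim, ∀ (m : ℤ) (x : H.A X), x ∈ H.gr X m → φ (q i) x = if m = i then x else 0 := by
    intro i hi m x hx
    rw [hφ, act0_apply, hqlt i hi]
    exact hact i hi m x hx
  have hφs : ∀ (y : cor0 C X) (i : ℕ), i < X.dim →
      (∀ (m : ℤ) (x : H.A X), x ∈ H.gr X m → φ y x = if m = i then x else 0) →
      ∀ (m : ℤ) (x : H.A X), x ∈ H.gr X m →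
        φ (tr0 C X y) x = if m = (2 * X.dim - i : ℕ) then x else 0 := by
    intro y i hi hy m x hx
    exact act_tp_of_act (H := H) (X := X) (σ := (y : Cor C X)) (i := i) (by omega) hy m x hx
  -- the sum
  obtain ⟨P, hP⟩ : ∃ P, P = ∑ i ∈ Finset.range X.dim, q i := ⟨_, rfl⟩
  have hqP : ∀ i < X.dim, q i * P = q i := by
    intro i hi
    rw [hP, Finset.mul_sum, Finset.sum_eq_single i]
    · rw [hqq, if_pos rfl]
    · intro j _ hj
      rw [hqq, if_neg (Ne.symm hj)]
    · intro h
      exact absurd (Finset.mem_range.2 hi) h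
  have hPq : ∀ i < X.dim, P * q i = q i := by
    intro i hi
    rw [hP, Finset.sum_mul, Finset.sum_eq_single i]
    · rw [hqq, if_pos rfl]
    · intro j _ hj
      rw [hqq, if_neg hj]
    · intro h
      exact absurd (Finset.mem_range.2 hi) h
  have hPP : P * P = P := by
    conv_lhs => rw [hP]
    rw [Finset.sum_mul, hP]
    apply Finset.sum_congr rfl
    intro i hi
    rw [← hP]
    exact hqP i (Finset.mem_range.1 hi)
  have hs := tr0_antiInv C X
  have hz1 : ∀ i < X.dim, ∀ j < X.dim, φ (tr0 C X (q i)) * φ (q j) = 0 := by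
    intro i hi j hj
    apply ext_gr H
    intro m x hx
    rw [Module.End.mul_apply, hφq j hj m x hx, LinearMap.zero_apply]
    split_ifs with h1
    · rw [hφs (q i) i hi (hφq i hi) m x hx, if_neg]
      intro h2
      omega
    · exact map_zero _
  have hz2 : ∀ i < X.dim, ∀ j < X.dim, φ (q i) * φ (tr0 C X (q j)) = 0 := by
    intro i hi j hj
    apply ext_gr H
    intro m x hx
    rw [Module.End.mul_apply, hφs (q j) j hj (hφq j hj) m x hx, LinearMap.zero_apply]
    split_ifs with h1
    · rw [hφq i hi m x hx, if_neg]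
      intro h2
      omega
    · exact map_zero _
  have h1 : φ (tr0 C X P * P) = 0 := by
    rw [hP, map_sum, map_mul, map_sum, map_sum, Finset.sum_mul]
    apply Finset.sum_eq_zero
    intro i hi
    rw [Finset.mul_sum]
    apply Finset.sum_eq_zero
    intro j hj
    exact hz1 i (Finset.mem_range.1 hi) j (Finset.mem_range.1 hj)
  have h2 : φ (P * tr0 C X P) = 0 := by
    rw [hP, map_sum, map_mul, map_sum, map_sum, Finset.sum_mul]
    apply Finset.sum_eq_zero
    intro i hi
    rw [Finset.mul_sum]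
    apply Finset.sum_eq_zero
    intro j hj
    exact hz2 i (Finset.mem_range.1 hi) j (Finset.mem_range.1 hj)
  have hPc : ((P : cor0 C X) : Cor C X) = (∑ i ∈ Finset.range X.dim, p i : C.A (X.prod X)) := by
    rw [hP]
    have e1 : (((∑ i ∈ Finset.range X.dim, q i : cor0 C X)) : Cor C X) =
        ∑ i ∈ Finset.range X.dim, ((q i : cor0 C X) : Cor C X) := by
      exact map_sum (cor0 C X).val _ _
    rw [e1]
    exact Finset.sum_congr rfl fun i hi => hqlt i (Finset.mem_range.1 hi)
  have hn : IsNilpotent (P * tr0 C X P * P) := by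
    obtain ⟨n, hn⟩ := hnil
    have e1 : (tr0 C X P * P) ^ n = 0 := by
      apply Subtype.ext
      have e2 : (((tr0 C X P * P : cor0 C X)) : Cor C X) =
          (C.comp (∑ i ∈ Finset.range X.dim, p i) (tp C (∑ i ∈ Finset.range X.dim, p i)) :
            C.A (X.prod X)) := by
        show (((tr0 C X P : cor0 C X)) : Cor C X) * (P : Cor C X) = _
        rw [cor_mul, tr0_coe, hPc]
        rfl
      show (((tr0 C X P * P : cor0 C X)) : Cor C X) ^ n = 0
      rw [e2]
      exact (corPow_eq_pow (C.comp (∑ i ∈ Finset.range X.dim, p i)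
        (tp C (∑ i ∈ Finset.range X.dim, p i))) n).symm.trans hn
    refine ⟨n + 1, ?_⟩
    have e3 : ∀ m : ℕ, (P * tr0 C X P * P) ^ (m + 1) = P * (tr0 C X P * P) ^ (m + 1) := by
      intro m
      induction m with
      | zero => rw [zero_add, pow_one, pow_one, mul_assoc]
      | succ m ih =>
        rw [pow_succ, ih, pow_succ (tr0 C X P * P) (m + 1)]
        have e4 : (tr0 C X P * P) ^ (m + 1) * P = (tr0 C X P * P) ^ (m + 1) := by
          rw [pow_succ, mul_assoc, mul_assoc, hPP]
        calc P * (tr0 C X P * P) ^ (m + 1) * (P * tr0 C X P * P)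
            = P * ((tr0 C X P * P) ^ (m + 1) * P) * (tr0 C X P * P) := by simp only [mul_assoc]
          _ = _ := by rw [e4, mul_assoc]
    rw [e3, pow_succ, e1, zero_mul, mul_zero]
  obtain ⟨u, v, hvu, -, -, huu, hvv, hφu, hφv, -, -⟩ := exists_isotropic_iso hs hPP h1 h2 hn
  obtain ⟨Q, hQ⟩ : ∃ Q : ℕ → cor0 C X, ∀ i, Q i = u * q i * v := ⟨fun i => u * q i * v, fun _ => rfl⟩
  have hφQ : ∀ i < X.dim, φ (Q i) = φ (q i) := by
    intro i hi
    rw [hQ, map_mul, map_mul, hφu, hφv, ← map_mul, ← map_mul, hPq i hi, hqP i hi]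
  have hQQ : ∀ m n, Q m * Q n = if m = n then Q m else 0 := by
    intro m n
    rw [hQ, hQ]
    rcases lt_or_ge m X.dim with hm | hm
    · calc u * q m * v * (u * q n * v) = u * (q m * (v * u) * q n) * v := by simp only [mul_assoc]
        _ = u * (q m * q n) * v := by rw [hvu, hqP m hm]
        _ = _ := by
            rw [hqq]
            split_ifs
            · rfl
            · rw [mul_zero, zero_mul]
    · rw [hq0 m hm, mul_zero, zero_mul, zero_mul]
      split_ifs <;> rfl
  have hQ1 : ∀ m n, Q m * tr0 C X (Q n) = 0 := by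
    intro m n
    rw [hQ, hQ, hs.mul, hs.mul]
    calc u * q m * v * (tr0 C X v * (tr0 C X (q n) * tr0 C X u))
        = u * q m * (v * tr0 C X v) * (tr0 C X (q n) * tr0 C X u) := by simp only [mul_assoc]
      _ = 0 := by rw [hvv, mul_zero, zero_mul]
  have hQ2 : ∀ m n, tr0 C X (Q m) * Q n = 0 := by
    intro m n
    rw [hQ, hQ, hs.mul, hs.mul]
    calc tr0 C X v * (tr0 C X (q m) * tr0 C X u) * (u * q n * v)
        = tr0 C X v * tr0 C X (q m) * (tr0 C X u * u) * (q n * v) := by simp only [mul_assoc]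
      _ = 0 := by rw [huu, mul_zero, zero_mul]
  refine selfDual_of_half (C := C) (H := H) (X := X) (fun n => ((Q n : cor0 C X) : Cor C X))
    (fun n => (Q n).2) ?_ ?_ ?_ ?_ ?_ ?_
  · intro n hn'
    rw [hQ, hq0 n hn', mul_zero, zero_mul]
    rfl
  · intro m n
    have h3 := congrArg Subtype.val (hQQ m n)
    refine h3.trans ?_
    split_ifs <;> rfl
  · intro m n
    exact congrArg Subtype.val (hQ1 m n)
  · intro m n
    exact congrArg Subtype.val (hQ2 m n)
  · intro n m a hn' ha
    have h3 : φ (Q n) a = if m = n then a else 0 := by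
      rw [hφQ n hn']
      exact hφq n hn' m a ha
    exact h3
  · intro n m a hn' ha
    exact hφs (Q n) n hn' (fun m x hx => by rw [hφQ n hn']; exact hφq n hn' m x hx) m a ha

end geo

end Pool.Agent.Zk81.SE
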